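import Pool.Agent.W921.RF.Defs

/-!
Project RF, part COO: the central part in coordinates.
-/

set_option autoImplicit false

namespace Pool.Agent.W361.RF

open Pool.Agent.W921.RF

theorem four_inj {m n : ℕ} (h : (4 : ℕ) ^ m = 4 ^ n) : m = n :=
  Nat.pow_right_injective (le_refl 2 |>.trans (by norm_num) : 2 ≤ 4) h

theorem ai_inj {e e' : ℕ} (h : ai e = ai e') : e = e' := by
  have := four_inj h
  omega

theorem bi_inj {e e' : ℕ} (h : bi e = bi e') : e = e' := by
  have := four_inj h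
  omega

theorem ai_ne_bi (e e' : ℕ) : ai e ≠ bi e' := by
  intro h
  have := four_inj h
  omega

theorem ai_pos (e : ℕ) : 0 < ai e := by unfold ai; positivity

theorem bi_pos (e : ℕ) : 0 < bi e := by unfold bi; positivity

theorem zet_ai (κ : ℕ → ℕ) (e : ℕ) :
    zet κ (ai e) = if κ e = 0 then Finsupp.single (ai e) 1
      else Finsupp.single (ai e) (κ e : ℤ) := by
  have h : ∃ e', ai e = ai e' := ⟨e, rfl⟩
  have hc : h.choose = e := (ai_inj h.choose_spec).symm
  unfold zet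
  rw [dif_pos h, hc]

theorem zet_bi (κ : ℕ → ℕ) (e : ℕ) :
    zet κ (bi e) = if κ e = 0 then 0 else Finsupp.single (ai e) 1 := by
  have h0 : ¬ ∃ e', bi e = ai e' := fun ⟨e', h⟩ => ai_ne_bi e' e h.symm
  have h : ∃ e', bi e = bi e' := ⟨e, rfl⟩
  have hc : h.choose = e := (bi_inj h.choose_spec).symm
  unfold zet
  rw [dif_neg h0, dif_pos h, hc]

theorem zet_other (κ : ℕ → ℕ) (d : ℕ) (h1 : ∀ e, d ≠ ai e) (h2 : ∀ e, d ≠ bi e) :
    zet κ d = Finsupp.single d 1 := by
  unfold zet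
  rw [dif_neg (fun ⟨e, h⟩ => h1 e h), dif_neg (fun ⟨e, h⟩ => h2 e h)]

/-- the odd function supported at `d` and `-d` -/
def dl (d : ℕ) (i : ℤ) : ℤ := if i = (d : ℤ) then (1 : ℤ) else if i = -(d : ℤ) then -1 else 0

theorem zf_map {C D : Type} [AddCommGroup C] [AddCommGroup D] (φ : C →+ D) (ρ : ℤ → C)
    (l : List (ℤ × ℤ)) : φ (Zf ρ l) = Zf (fun i => φ (ρ i)) l := by
  induction l with
  | nil => simp [Zf]
  | cons o l ih =>
    simp only [Zf, map_add, ih, map_list_sum, List.map_map]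
    congr 2
    apply List.map_congr_left
    intro o' _
    simp

theorem zf_lin (c1 c2 : ℤ) (f1 f2 : ℤ → ℤ) (l : List (ℤ × ℤ)) :
    Zf (fun i => c1 * f1 i + c2 * f2 i) l = c1 * Zf f1 l + c2 * Zf f2 l := by
  induction l with
  | nil => simp [Zf]
  | cons o l ih =>
    simp only [Zf, ih, smul_eq_mul]
    have : ∀ l' : List (ℤ × ℤ),
        (l'.map fun o' => o.2 * o'.2 * (c1 * f1 (o.1 - o'.1) + c2 * f2 (o.1 - o'.1))).sum =
        c1 * (l'.map fun o' => o.2 * o'.2 * f1 (o.1 - o'.1)).sum +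
          c2 * (l'.map fun o' => o.2 * o'.2 * f2 (o.1 - o'.1)).sum := by
      intro l'
      induction l' with
      | nil => simp
      | cons a l' ih' =>
        simp only [List.map_cons, List.sum_cons, ih']
        ring
    rw [this]
    ring

theorem coord_lin (κ : ℕ → ℕ) (k d1 d2 : ℕ) (c1 c2 : ℤ) (hd1 : 0 < d1) (hd2 : 0 < d2)
    (h : ∀ d : ℕ, 0 < d → zet κ d k =
      c1 * (if d = d1 then 1 else 0) + c2 * (if d = d2 then 1 else 0)) (i : ℤ) :
    rho κ i k = c1 * dl d1 i + c2 * dl d2 i := by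
  have key : ∀ (d e : ℕ), 0 < d → 0 < e → dl e (d : ℤ) = if d = e then 1 else 0 := by
    intro d e hd he
    unfold dl
    by_cases h : d = e
    · simp [h]
    · rw [if_neg (by exact_mod_cast h), if_neg (by omega), if_neg h]
  have key2 : ∀ (d e : ℕ), 0 < d → 0 < e → dl e (-(d : ℤ)) = -(if d = e then 1 else 0) := by
    intro d e hd he
    unfold dl
    by_cases h : d = e
    · rw [if_neg (by omega), if_pos (by omega), if_pos h]
    · rw [if_neg (by omega), if_neg (by omega), if_neg h, neg_zero]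
  unfold rho
  rcases lt_trichotomy i 0 with hi | hi | hi
  · rw [if_neg (by omega), if_pos hi, Finsupp.neg_apply]
    obtain ⟨d, hd⟩ : ∃ d : ℕ, i = -(d : ℤ) := ⟨(-i).toNat, by omega⟩
    have hd0 : 0 < d := by omega
    have e1 : (-i).toNat = d := by omega
    rw [e1, h d hd0, hd, key2 d d1 hd0 hd1, key2 d d2 hd0 hd2]
    ring
  · subst hi
    rw [if_neg (by omega), if_neg (by omega)]
    have z1 : ∀ e : ℕ, 0 < e → dl e 0 = 0 := by
      intro e he
      unfold dl
      rw [if_neg (by omega), if_neg (by omega)]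
    rw [z1 d1 hd1, z1 d2 hd2]
    simp
  · rw [if_pos hi]
    obtain ⟨d, hd⟩ : ∃ d : ℕ, i = (d : ℤ) := ⟨i.toNat, by omega⟩
    have hd0 : 0 < d := by omega
    have e1 : i.toNat = d := by omega
    rw [e1, h d hd0, hd, key d d1 hd0 hd1, key d d2 hd0 hd2]

theorem coord_cf (κ : ℕ → ℕ) (l : List (ℤ × ℤ)) (k d1 d2 : ℕ) (c1 c2 : ℤ) (hd1 : 0 < d1)
    (hd2 : 0 < d2)
    (h : ∀ d : ℕ, 0 < d → zet κ d k =
      c1 * (if d = d1 then 1 else 0) + c2 * (if d = d2 then 1 else 0)) :
    Zf (rho κ) l k = c1 * cf l d1 + c2 * cf l d2 := by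
  have h1 := zf_map (Finsupp.applyAddHom (M := ℤ) k) (rho κ) l
  have h2 : (fun i => Finsupp.applyAddHom (M := ℤ) k (rho κ i)) =
      fun i => c1 * dl d1 i + c2 * dl d2 i := by
    funext i
    exact coord_lin κ k d1 d2 c1 c2 hd1 hd2 h i
  rw [h2, zf_lin] at h1
  exact h1

/-- case analysis of the positive numbers -/
theorem zet_cases (κ : ℕ → ℕ) (P : ℕ → (ℕ →₀ ℤ) → Prop)
    (h1 : ∀ e, κ e = 0 → P (ai e) (Finsupp.single (ai e) 1))
    (h2 : ∀ e, κ e ≠ 0 → P (ai e) (Finsupp.single (ai e) (κ e : ℤ)))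
    (h3 : ∀ e, κ e = 0 → P (bi e) 0)
    (h4 : ∀ e, κ e ≠ 0 → P (bi e) (Finsupp.single (ai e) 1))
    (h5 : ∀ d, 0 < d → (∀ e, d ≠ ai e) → (∀ e, d ≠ bi e) → P d (Finsupp.single d 1)) :
    ∀ d, 0 < d → P d (zet κ d) := by
  intro d hd
  by_cases ha : ∃ e, d = ai e
  · obtain ⟨e, rfl⟩ := ha
    rw [zet_ai]
    by_cases hk : κ e = 0
    · rw [if_pos hk]; exact h1 e hk
    · rw [if_neg hk]; exact h2 e hk
  · by_cases hb : ∃ e, d = bi e
    · obtain ⟨e, rfl⟩ := hb
      rw [zet_bi]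
      by_cases hk : κ e = 0
      · rw [if_pos hk]; exact h3 e hk
      · rw [if_neg hk]; exact h4 e hk
    · rw [not_exists] at ha hb
      rw [zet_other κ d ha hb]
      exact h5 d hd ha hb

theorem coord_cases (κ : ℕ → ℕ) (l : List (ℤ × ℤ)) (k d1 d2 : ℕ) (c1 c2 : ℤ) (hd1 : 0 < d1)
    (hd2 : 0 < d2)
    (h1 : ∀ e, κ e = 0 → (Finsupp.single (ai e) 1 : ℕ →₀ ℤ) k =
      c1 * (if ai e = d1 then 1 else 0) + c2 * (if ai e = d2 then 1 else 0))
    (h2 : ∀ e, κ e ≠ 0 → (Finsupp.single (ai e) (κ e : ℤ) : ℕ →₀ ℤ) k =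
      c1 * (if ai e = d1 then 1 else 0) + c2 * (if ai e = d2 then 1 else 0))
    (h3 : ∀ e, κ e = 0 → (0 : ℕ →₀ ℤ) k =
      c1 * (if bi e = d1 then 1 else 0) + c2 * (if bi e = d2 then 1 else 0))
    (h4 : ∀ e, κ e ≠ 0 → (Finsupp.single (ai e) 1 : ℕ →₀ ℤ) k =
      c1 * (if bi e = d1 then 1 else 0) + c2 * (if bi e = d2 then 1 else 0))
    (h5 : ∀ d, 0 < d → (∀ e, d ≠ ai e) → (∀ e, d ≠ bi e) → (Finsupp.single d 1 : ℕ →₀ ℤ) k =
      c1 * (if d = d1 then 1 else 0) + c2 * (if d = d2 then 1 else 0)) :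
    Zf (rho κ) l k = c1 * cf l d1 + c2 * cf l d2 :=
  coord_cf κ l k d1 d2 c1 c2 hd1 hd2
    (zet_cases κ (fun d z => z k = c1 * (if d = d1 then 1 else 0) +
      c2 * (if d = d2 then 1 else 0)) h1 h2 h3 h4 h5)

theorem task : S_COO := by
  intro κ l
  have c0 : Zf (rho κ) l 0 = 0 := by
    rw [coord_cases κ l 0 1 1 0 0 one_pos one_pos]
    · ring
    · intro e _
      simp [(ai_pos e).ne']
    · intro e _
      simp [(ai_pos e).ne']
    · intro e _
      simp
    · intro e _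
      simp [(ai_pos e).ne']
    · intro d hd _ _
      simp [hd.ne']
  have cb : ∀ e, Zf (rho κ) l (bi e) = 0 := by
    intro e
    rw [coord_cases κ l (bi e) 1 1 0 0 one_pos one_pos]
    · ring
    · intro e' _
      simp [ai_ne_bi e' e]
    · intro e' _
      simp [ai_ne_bi e' e]
    · intro e' _
      simp
    · intro e' _
      simp [ai_ne_bi e' e]
    · intro d hd _ hb
      simp [hb e]
  have cn : ∀ k, 0 < k → (∀ e, k ≠ ai e) → (∀ e, k ≠ bi e) → Zf (rho κ) l k = cf l k := by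
    intro k hk ha hb
    rw [coord_cases κ l k k 1 1 0 hk one_pos]
    · ring
    · intro e' _
      simp [(ha e').symm]
    · intro e' _
      simp [(ha e').symm]
    · intro e' _
      simp [(hb e').symm]
    · intro e' _
      simp [(ha e').symm, (hb e').symm]
    · intro d hd _ _
      by_cases h : d = k <;> simp [h]
  have ca0 : ∀ e, κ e = 0 → Zf (rho κ) l (ai e) = cf l (ai e) := by
    intro e he
    rw [coord_cases κ l (ai e) (ai e) 1 1 0 (ai_pos e) one_pos]
    · ring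
    · intro e' _
      by_cases h : ai e' = ai e <;> simp [h]
    · intro e' h'
      have hne : ai e' ≠ ai e := fun h => h' (by rw [ai_inj h]; exact he)
      simp [hne]
    · intro e' _
      simp [(ai_ne_bi e e').symm]
    · intro e' h'
      have hne : ai e' ≠ ai e := fun h => h' (by rw [ai_inj h]; exact he)
      simp [hne, (ai_ne_bi e e').symm]
    · intro d hd ha _
      simp [ha e]
  have ca1 : ∀ e, κ e ≠ 0 → Zf (rho κ) l (ai e) = (κ e : ℤ) * cf l (ai e) + cf l (bi e) := by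
    intro e he
    rw [coord_cases κ l (ai e) (ai e) (bi e) (κ e) 1 (ai_pos e) (bi_pos e)]
    · ring
    · intro e' h'
      have hne : ai e' ≠ ai e := fun h => he (by rw [← ai_inj h]; exact h')
      simp [hne, ai_ne_bi e' e]
    · intro e' h'
      by_cases h : ai e' = ai e
      · have := ai_inj h
        subst this
        simp [ai_ne_bi]
      · simp [h, ai_ne_bi e' e]
    · intro e' h'
      have hne : bi e' ≠ bi e := fun h => he (by rw [← bi_inj h]; exact h')
      simp [(ai_ne_bi e e').symm, hne]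
    · intro e' h'
      by_cases h : ai e' = ai e
      · have := ai_inj h
        subst this
        simp [(ai_ne_bi e' e').symm]
      · have hne : bi e' ≠ bi e := fun h2 => h (by rw [bi_inj h2])
        simp [h, (ai_ne_bi e e').symm, hne]
    · intro d hd ha hb
      simp [ha e, hb e]
  refine ⟨cb, c0, ?_⟩
  constructor
  · intro hne
    obtain ⟨k, hk⟩ : ∃ k, Zf (rho κ) l k ≠ 0 := by
      by_contra h
      push Not at h
      exact hne (Finsupp.ext h)
    have hk0 : 0 < k := by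
      rcases Nat.eq_zero_or_pos k with h | h
      · subst h; exact absurd c0 hk
      · exact h
    by_cases ha : ∃ e, k = ai e
    · obtain ⟨e, rfl⟩ := ha
      right
      refine ⟨e, ?_⟩
      by_cases he : κ e = 0
      · left
        exact ⟨he, by rw [← ca0 e he]; exact hk⟩
      · right
        exact ⟨he, by rw [← ca1 e he]; exact hk⟩
    · by_cases hb : ∃ e, k = bi e
      · obtain ⟨e, rfl⟩ := hb
        exact absurd (cb e) hk
      · rw [not_exists] at ha hb
        left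
        exact ⟨k, hk0, ha, hb, by rw [← cn k hk0 ha hb]; exact hk⟩
  · rintro (⟨d, hd, ha, hb, hcf⟩ | ⟨e, ⟨he, hcf⟩ | ⟨he, hcf⟩⟩) h0
    · apply hcf
      rw [← cn d hd ha hb, h0]
      rfl
    · apply hcf
      rw [← ca0 e he, h0]
      rfl
    · apply hcf
      rw [← ca1 e he, h0]
      rfl

end Pool.Agent.W361.RF
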